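import Pool.Agent.H77.WC.Stm

namespace Pool.Agent.H25.WC

open Pool.Agent.H77.WC MeasureTheory Set Filter Topology
open scoped BigOperators

theorem trg : S_TRG := by
  intro a ε ha0 ha1 hε
  have hfact : Fact ((0 : ℝ) < 1) := ⟨one_pos⟩
  set g : ℝ → ℂ := fun x => if x < a then (1 : ℂ) else 0 with hg
  set f : AddCircle (1 : ℝ) → ℂ := AddCircle.liftIco 1 0 g with hf
  have hgm : Measurable g := Measurable.ite measurableSet_Iio measurable_const measurable_const
  have hgb : ∀ x, ‖g x‖ ≤ 1 := by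
    intro x
    simp only [hg]
    split_ifs <;> simp
  have hmeas : Measurable f := by
    have h1 : Measurable (fun b : AddCircle (1 : ℝ) => ((AddCircle.measurableEquivIco (1 : ℝ) 0 b : Ico (0 : ℝ) (0 + 1)) : ℝ)) :=
      measurable_subtype_coe.comp (AddCircle.measurableEquivIco (1 : ℝ) 0).measurable
    exact hgm.comp h1
  have hbd : ∀ b, ‖f b‖ ≤ 1 := by
    intro b
    exact hgb _
  have hmem : MemLp f 1 (@AddCircle.haarAddCircle 1 hfact) :=
    MemLp.of_bound hmeas.aestronglyMeasurable 1 (Filter.Eventually.of_forall hbd)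
  have h11 : Fact ((1 : ENNReal) ≤ 1) := ⟨le_refl _⟩
  have hdense : hmem.toLp f ∈ closure ((Submodule.span ℂ (range (@fourierLp 1 hfact 1 h11)) : Submodule ℂ _) : Set (Lp ℂ 1 (@AddCircle.haarAddCircle 1 hfact))) := by
    have h2 := @span_fourierLp_closure_eq_top 1 hfact 1 h11 ENNReal.one_ne_top
    have h3 : hmem.toLp f ∈ (Submodule.span ℂ (range (@fourierLp 1 hfact 1 h11))).topologicalClosure := by
      rw [h2]; trivial
    exact h3
  obtain ⟨q, hq, hdist⟩ := Metric.mem_closure_iff.1 hdense ε hε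
  rw [SetLike.mem_coe, Finsupp.mem_span_range_iff_exists_finsupp] at hq
  obtain ⟨c, hc⟩ := hq
  refine ⟨c.support, c, ?_⟩
  set Q : AddCircle (1 : ℝ) → ℂ := fun b => ∑ n ∈ c.support, c n * fourier n b with hQ
  have hqQ : (q : AddCircle (1 : ℝ) → ℂ) =ᵐ[@AddCircle.haarAddCircle 1 hfact] Q := by
    rw [← hc]
    have h5 : ∀ s : Finset ℤ, ((∑ n ∈ s, c n • @fourierLp 1 hfact 1 h11 n : Lp ℂ 1 (@AddCircle.haarAddCircle 1 hfact)) : AddCircle (1 : ℝ) → ℂ)
        =ᵐ[@AddCircle.haarAddCircle 1 hfact] fun b => ∑ n ∈ s, c n * fourier n b := by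
      intro s
      induction s using Finset.induction_on with
      | empty =>
        simp only [Finset.sum_empty]
        exact Lp.coeFn_zero _ _ _
      | insert n s hn ih =>
        simp only [Finset.sum_insert hn]
        refine (Lp.coeFn_add _ _).trans ?_
        have h6 := Lp.coeFn_smul (c n) (@fourierLp 1 hfact 1 h11 n)
        have h7 := @coeFn_fourierLp 1 hfact 1 h11 n
        filter_upwards [ih, h6, h7] with b hb1 hb2 hb3
        simp only [Pi.add_apply, hb1, hb2, Pi.smul_apply, hb3, smul_eq_mul]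
    exact h5 c.support
  have hnorm : ∫ b, ‖f b - Q b‖ ∂(@AddCircle.haarAddCircle 1 hfact) < ε := by
    rw [dist_eq_norm, L1.norm_eq_integral_norm] at hdist
    refine lt_of_le_of_lt (le_of_eq ?_) hdist
    apply integral_congr_ae
    have h8 := Lp.coeFn_sub (hmem.toLp f) q
    have h9 := hmem.coeFn_toLp
    filter_upwards [h8, h9, hqQ] with b hb1 hb2 hb3
    rw [hb1, Pi.sub_apply, hb2, hb3]
  have hvol : (volume : Measure (AddCircle (1 : ℝ))) = @AddCircle.haarAddCircle 1 hfact := by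
    rw [AddCircle.volume_eq_smul_haarAddCircle]; simp
  have hint := AddCircle.intervalIntegral_preimage (1 : ℝ) 0 (fun b : AddCircle (1 : ℝ) => ‖f b - Q b‖)
  rw [hvol, zero_add] at hint
  refine le_of_lt (lt_of_le_of_lt (le_of_eq ?_) hnorm)
  rw [← hint]
  apply intervalIntegral.integral_congr_ae
  have hne : ∀ᵐ x : ℝ, x ≠ 1 := by
    have : (volume ({1} : Set ℝ)) = 0 := by simp
    rw [ae_iff]; simp
  filter_upwards [hne] with x hx hx2
  rw [uIoc_of_le zero_le_one] at hx2
  have hxI : x ∈ Ico (0 : ℝ) 1 := ⟨hx2.1.le, lt_of_le_of_ne hx2.2 hx⟩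
  have hfx : f (x : AddCircle (1 : ℝ)) = g x := AddCircle.liftIco_zero_coe_apply hxI
  rw [hfx]
  simp only [hg, hQ]
  congr 2
  refine Finset.sum_congr rfl fun n _ => ?_
  rw [fourier_coe_apply]
  congr 2
  push_cast
  ring

end Pool.Agent.H25.WC
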